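import Pool.Agent.T9h20.TF.Spec

/-!
# Project TF, piece (S): decomposition of a window, with the dominance stated
(the proof of `T9h20/TE/Split2.lean`)
-/

set_option autoImplicit false

open MeasureTheory Set Filter Topology
open scoped ENNReal NNReal

namespace Pool.Agent.T9h22.TF

open Pool.Agent.T9h20.TA (mon sel isSel_sel mx)
open Pool.Agent.T9h20.TE Pool.Agent.T9h20.TF

/-- (S) -/
theorem sDec : SDec := by
  classical
  intro q t _ c a hc M hM
  set Z : Finset ℝ := (Finset.univ : Finset (Bool × Fin q × Fin t)).image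
    (fun p => if p.1 then sInf (DD (c p.2.1) (a p.2.1) p.2.2 ∩ Icc (-M) M)
      else sSup (DD (c p.2.1) (a p.2.1) p.2.2 ∩ Icc (-M) M)) with hZ
  set X : Finset ℝ := insert (-M) (Z.filter fun z => z ∈ Ioo (-M) M) with hX
  have hXM : ∀ x ∈ X, -M ≤ x ∧ x < M := by
    intro x hx
    rw [hX, Finset.mem_insert] at hx
    rcases hx with rfl | hx
    · exact ⟨le_rfl, by linarith⟩
    · have := (Finset.mem_filter.1 hx).2
      exact ⟨this.1.le, this.2⟩
  set nx : ℝ → ℝ := fun x =>
    if h : (X.filter fun z => x < z).Nonempty then (X.filter fun z => x < z).min' h else M with hnx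
  have hnxX : ∀ x ∈ X, nx x = M ∨ nx x ∈ X := by
    intro x _
    by_cases h : (X.filter fun z => x < z).Nonempty
    · right
      have e : nx x = (X.filter fun z => x < z).min' h := by rw [hnx]; simp only; rw [dif_pos h]
      rw [e]
      exact (Finset.mem_filter.1 (Finset.min'_mem _ h)).1
    · left
      rw [hnx]; simp only; rw [dif_neg h]
  have hlt : ∀ x ∈ X, x < nx x := by
    intro x hx
    by_cases h : (X.filter fun z => x < z).Nonempty
    · have e : nx x = (X.filter fun z => x < z).min' h := by rw [hnx]; simp only; rw [dif_pos h]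
      rw [e]
      exact (Finset.mem_filter.1 (Finset.min'_mem _ h)).2
    · have e : nx x = M := by rw [hnx]; simp only; rw [dif_neg h]
      rw [e]
      exact (hXM x hx).2
  have hle : ∀ x ∈ X, ∀ z ∈ X, x < z → nx x ≤ z := by
    intro x _ z hz hxz
    have hmem : z ∈ X.filter fun z => x < z := Finset.mem_filter.2 ⟨hz, hxz⟩
    have h : (X.filter fun z => x < z).Nonempty := ⟨z, hmem⟩
    have e : nx x = (X.filter fun z => x < z).min' h := by rw [hnx]; simp only; rw [dif_pos h]
    rw [e]
    exact Finset.min'_le _ _ hmem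
  have hnM : ∀ x ∈ X, nx x ≤ M := by
    intro x hx
    rcases hnxX x hx with h | h
    · exact h.le
    · exact (hXM _ h).2.le
  have hno : ∀ x ∈ X, ∀ y ∈ Ioo x (nx x), y ∉ X := by
    intro x hx y hy hyX
    have := hle x hx y hyX hy.1
    linarith [hy.2]
  have hno3 : ∀ x ∈ X, ∀ y ∈ Ioo x (nx x), y ∉ Z := by
    intro x hx y hy hyZ
    apply hno x hx y hy
    rw [hX, Finset.mem_insert]
    right
    exact Finset.mem_filter.2 ⟨hyZ, lt_of_le_of_lt (hXM x hx).1 hy.1,
      lt_of_lt_of_le hy.2 (hnM x hx)⟩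
  have hno2 : ∀ x ∈ X, ∀ j, ∀ s, ∀ y ∈ Ioo x (nx x),
      y ≠ sInf (DD (c j) (a j) s ∩ Icc (-M) M) ∧
      y ≠ sSup (DD (c j) (a j) s ∩ Icc (-M) M) := by
    intro x hx j s y hy
    constructor
    · intro hcon
      apply hno3 x hx y hy
      rw [hZ, Finset.mem_image]
      exact ⟨(true, j, s), Finset.mem_univ _, by simp [hcon]⟩
    · intro hcon
      apply hno3 x hx y hy
      rw [hZ, Finset.mem_image]
      exact ⟨(false, j, s), Finset.mem_univ _, by simp [hcon]⟩
  have hmid : ∀ x ∈ X, (x + nx x) / 2 ∈ Ioo x (nx x) := by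
    intro x hx
    have := hlt x hx
    constructor <;> linarith
  have hdom : ∀ x ∈ X, ∀ j, x ∈ DD (c j) (a j) (sel (c j) (a j) ((x + nx x) / 2)) ∧
      nx x ∈ DD (c j) (a j) (sel (c j) (a j) ((x + nx x) / 2)) := fun x hx j =>
    dom_interval (hc j) (hXM x hx).1 (hnM x hx) (hmid x hx) (hno2 x hx j)
  refine ⟨X, nx, fun x j => sel (c j) (a j) ((x + nx x) / 2), ?_,
    fun x hx => ⟨hlt x hx, (hXM x hx).1, hnM x hx⟩, ?_, hdom⟩
  · have h1 : X.card ≤ (Z.filter fun z => z ∈ Ioo (-M) M).card + 1 := by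
      rw [hX]; exact Finset.card_insert_le _ _
    have h2 : (Z.filter fun z => z ∈ Ioo (-M) M).card ≤ Z.card := Finset.card_filter_le _ _
    have h3 : Z.card ≤ 2 * q * t := by
      rw [hZ]
      refine Finset.card_image_le.trans (le_of_eq ?_)
      rw [Finset.card_univ, Fintype.card_prod, Fintype.card_prod, Fintype.card_fin,
        Fintype.card_fin, Fintype.card_bool]
      ring
    omega
  · intro y hy
    by_cases hyX : y ∈ X
    · exact ⟨y, hyX, le_rfl, hlt y hyX⟩
    have hMX : -M ∈ X := by rw [hX]; exact Finset.mem_insert_self _ _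
    have hne : (X.filter fun z => z < y).Nonempty := ⟨-M, Finset.mem_filter.2 ⟨hMX, hy.1⟩⟩
    set x := (X.filter fun z => z < y).max' hne with hx
    have hxm := Finset.mem_filter.1 (Finset.max'_mem _ hne)
    rw [← hx] at hxm
    refine ⟨x, hxm.1, hxm.2.le, ?_⟩
    rcases hnxX x hxm.1 with h | h
    · rw [h]; exact hy.2
    · by_contra hcon
      push Not at hcon
      have h1 : nx x ≠ y := fun h2 => hyX (h2 ▸ h)
      have h2 : nx x < y := lt_of_le_of_ne hcon h1
      have h3 : nx x ≤ x := Finset.le_max' _ _ (Finset.mem_filter.2 ⟨h, h2⟩)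
      linarith [hlt x hxm.1]

end Pool.Agent.T9h22.TF
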